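import Pool.Agent.W254.PA.LeoH

/-!
# Leopoldt relations whose exponents lie in a fixed finite dimensional space

Let `A` be a finite dimensional space, over the algebraic numbers, of elements of the algebraic closure
of `ℚ_p`.

(a) There is ONE number field `F₀`, Galois over `ℚ`, such that for EVERY number field `K` with
`K ∩ F₀ = ℚ`, every embedding `σ` of `K`, every `r` and all multiplicatively independent units
`ε_1, ..., ε_r` of `K` there is no nonzero relation `a_1 log σ ε_1 + ... + a_r log σ ε_r = 0` with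
exponents `a_i` in `y A` for some `y`.

(b) Consequently among the number fields without subfields other than `ℚ` and themselves (for example
among all the fields of prime degree) at most finitely many have such a relation.

Proof.  By the `p`-adic hyperplane theorem the relations with exponents in `A` between the logarithms
of all the algebraic units (under one embedding of the algebraic closure of `ℚ`) span a finite
dimensional space, which is spanned by relations between units of one number field `F₀`, Galois over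
`ℚ`; hence every relation over `K` involves only units of `F₀` up to roots of unity and powers, that
is units of `K ∩ F₀ = ℚ`.
-/

set_option autoImplicit false

namespace Pool.Agent.Results.MP_5f2860_nt.AlmostAllFields

open NumberField

/-- **Main result.** -/
theorem result (p : ℕ) [Fact p.Prime] (L : PadicAlgCl p → PadicAlgCl p)
    (hmul : ∀ x y : PadicAlgCl p, x ≠ 0 → y ≠ 0 → L (x * y) = L x + L y)
    (hprime : L ((p : ℕ) : PadicAlgCl p) = 0)
    (hser : ∀ z : PadicAlgCl p, ‖z‖ < 1 →
      HasSum (fun n : ℕ => (-1 : PadicAlgCl p) ^ n * z ^ (n + 1) / ((n : PadicAlgCl p) + 1))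
        (L (1 + z)))
    (A : Submodule (algebraicClosure ℚ (PadicAlgCl p)) (PadicAlgCl p))
    [FiniteDimensional (algebraicClosure ℚ (PadicAlgCl p)) A] :
    (∃ F₀ : IntermediateField ℚ (AlgebraicClosure ℚ), FiniteDimensional ℚ F₀ ∧ Normal ℚ F₀ ∧
      ∀ K : IntermediateField ℚ (AlgebraicClosure ℚ), K ⊓ F₀ = ⊥ →
        ∀ (σ : K →+* PadicAlgCl p) (r : ℕ) (ε : Fin r → (𝓞 K)ˣ),
        (∀ m : Fin r → ℤ, ∏ i, ε i ^ m i = 1 → m = 0) →
        ∀ a : Fin r → PadicAlgCl p, (∃ y : PadicAlgCl p, ∀ i, ∃ x ∈ A, a i = y * x) →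
          ∑ i, a i * L (σ ((ε i : 𝓞 K) : K)) = 0 → a = 0) ∧
    {K : IntermediateField ℚ (AlgebraicClosure ℚ) |
      (∀ M : IntermediateField ℚ (AlgebraicClosure ℚ), M ≤ K → M = ⊥ ∨ M = K) ∧
        ∃ (σ : K →+* PadicAlgCl p) (r : ℕ) (ε : Fin r → (𝓞 K)ˣ) (a : Fin r → PadicAlgCl p),
        (∀ m : Fin r → ℤ, ∏ i, ε i ^ m i = 1 → m = 0) ∧
        (∃ y : PadicAlgCl p, ∀ i, ∃ x ∈ A, a i = y * x) ∧
          ∑ i, a i * L (σ ((ε i : 𝓞 K) : K)) = 0 ∧ a ≠ 0}.Finite :=
  Pool.Agent.W254.PA.almost_all ⟨hmul, hprime, hser⟩ A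

end Pool.Agent.Results.MP_5f2860_nt.AlmostAllFields
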