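import Pool.Agent.W254.PA.LeoT2

/-!
# Leopoldt relations over number fields with a doubly transitive Galois group

Let `K` be a number field of degree `d` such that the automorphisms of the algebraic closure of `ℚ`
act doubly transitively on the embeddings of `K` (for example `K = ℚ(θ)`, `θ` a root of a polynomial
of degree `d` with Galois group `S_d`, or `A_d`, `d ≥ 4`), let `ε_1, ..., ε_r` be multiplicatively
independent units of `K` and suppose that there is a Leopoldt relation: numbers `a_1, ..., a_r` in
the algebraic closure of `ℚ_p`, not all zero, such that `∑ a_i log σ ε_i = 0` for every embedding `σ`.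
Let `A` be the space spanned by the `a_i` over the field of algebraic numbers.

(i) For every finite dimensional space `B`, every `s ≤ dim B` and every `δ ≥ dim (B A) - dim B`
one has `(d - 1) s ≤ (δ + s) (δ + s - 1)`.
(ii) In particular `d - 1 ≤ dim A (dim A - 1)`.
(iii) If the Hilbert function `k ↦ dim A ^ k` of the point `(a_1 : ... : a_r)` is bounded by
`k D + c` for all `k`, then `d ≤ max (1, 4 D - 1)`: the point lies on no algebraic curve over the
algebraic numbers of degree `D ≤ d / 4`.
(iv) If the `a_i` are up to a common factor the values of polynomials with algebraic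
coefficients, of degree at most `D` in each variable, at some `t_1, ..., t_n`, then
`d - 1 ≤ (4 D)^n - 2^n`.

Proof.  By double transitivity the `d` conjugates of `∑ a_i ⊗ ε_i` span a space of dimension `d - 1`.
Under a fixed embedding of the algebraic closure all of them are relations with coefficients in `A`
between the logarithms of the conjugates of the units, so that the `p`-adic hyperplane theorem bounds
`d - 1`; this is applied to the space `B` intersected with the kernel of the evaluation at
`dim B - s` points of a specialisation variety (an idea of helper256).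
-/

set_option autoImplicit false

namespace Pool.Agent.Results.MP_5f2860_nt.DoublyTransitive

open NumberField MvPolynomial Module

/-- The automorphisms of the algebraic closure of `ℚ` act doubly transitively on the embeddings of
`K` (that is, the Galois group of the normal closure of `K` acts doubly transitively). -/
def TwoTransitive (K : Type) [Field K] : Prop :=
  ∀ τ₁ τ₂ τ₁' τ₂' : K →+* AlgebraicClosure ℚ, τ₁ ≠ τ₂ → τ₁' ≠ τ₂' →
    ∃ g : AlgebraicClosure ℚ ≃+* AlgebraicClosure ℚ,
      (g : AlgebraicClosure ℚ →+* AlgebraicClosure ℚ).comp τ₁ = τ₁' ∧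
      (g : AlgebraicClosure ℚ →+* AlgebraicClosure ℚ).comp τ₂ = τ₂'

/-- `a` is a nonzero Leopoldt relation between the multiplicatively independent units `ε`. -/
def LeopoldtRelation (p : ℕ) [Fact p.Prime] (L : PadicAlgCl p → PadicAlgCl p) (K : Type) [Field K]
    [NumberField K] (r : ℕ) (ε : Fin r → (𝓞 K)ˣ) (a : Fin r → PadicAlgCl p) : Prop :=
  (∀ m : Fin r → ℤ, ∏ i, ε i ^ m i = 1 → m = 0) ∧ a ≠ 0 ∧
    ∀ σ : K →+* PadicAlgCl p, ∑ i, a i * L (σ ((ε i : 𝓞 K) : K)) = 0

/-- Exponents which are, up to a common factor `y`, the values at `t` of polynomials with algebraic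
coefficients, of degree at most `D` in each variable. -/
def PolynomialExponents (p : ℕ) [Fact p.Prime] (n D : ℕ) (t : Fin n → PadicAlgCl p) (r : ℕ)
    (a : Fin r → PadicAlgCl p) : Prop :=
  ∃ (y : PadicAlgCl p) (P : Fin r → MvPolynomial (Fin n) (algebraicClosure ℚ (PadicAlgCl p))),
    (∀ i, ∀ m ∈ (P i).support, ∀ s, m s ≤ D) ∧ ∀ i, a i = y * aeval t (P i)

/-- **Main result.** -/
theorem result (p : ℕ) [Fact p.Prime] (L : PadicAlgCl p → PadicAlgCl p)
    (hmul : ∀ x y : PadicAlgCl p, x ≠ 0 → y ≠ 0 → L (x * y) = L x + L y)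
    (hprime : L ((p : ℕ) : PadicAlgCl p) = 0)
    (hser : ∀ z : PadicAlgCl p, ‖z‖ < 1 →
      HasSum (fun n : ℕ => (-1 : PadicAlgCl p) ^ n * z ^ (n + 1) / ((n : PadicAlgCl p) + 1))
        (L (1 + z)))
    (K : Type) [Field K] [NumberField K] (hK : TwoTransitive K) (r : ℕ) (ε : Fin r → (𝓞 K)ˣ)
    (a : Fin r → PadicAlgCl p) (ha : LeopoldtRelation p L K r ε a)
    (A : Submodule (algebraicClosure ℚ (PadicAlgCl p)) (PadicAlgCl p))
    (hA : A = Submodule.span (algebraicClosure ℚ (PadicAlgCl p)) (Set.range a)) :
    (∀ (B : Submodule (algebraicClosure ℚ (PadicAlgCl p)) (PadicAlgCl p))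
      [FiniteDimensional (algebraicClosure ℚ (PadicAlgCl p)) B] (s δ : ℕ),
      s ≤ finrank (algebraicClosure ℚ (PadicAlgCl p)) B →
      finrank (algebraicClosure ℚ (PadicAlgCl p)) ↥(B * A) ≤
        finrank (algebraicClosure ℚ (PadicAlgCl p)) B + δ →
      (finrank ℚ K - 1) * s ≤ (δ + s) * (δ + s - 1)) ∧
    finrank ℚ K - 1 ≤ finrank (algebraicClosure ℚ (PadicAlgCl p)) A *
      (finrank (algebraicClosure ℚ (PadicAlgCl p)) A - 1) ∧
    (∀ D c : ℕ, (∀ k : ℕ, finrank (algebraicClosure ℚ (PadicAlgCl p)) ↥(A ^ k) ≤ k * D + c) →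
      finrank ℚ K ≤ max 1 (4 * D - 1)) ∧
    (∀ (n D : ℕ) (t : Fin n → PadicAlgCl p), PolynomialExponents p n D t r a →
      finrank ℚ K - 1 ≤ (4 * D) ^ n - 2 ^ n) :=
  Pool.Agent.W254.PA.two_trans_final ⟨hmul, hprime, hser⟩ hK r ε ha.1 a ha.2.1 ha.2.2 A hA

end Pool.Agent.Results.MP_5f2860_nt.DoublyTransitive
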