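import Pool.Agent.W254.LF.Zed

/-!
# Leopoldt's conjecture for almost all members of explicit families, in every degree

(1) Let `P_1, ..., P_r` be distinct monic polynomials with integral coefficients, each of them linear
or quadratic without real roots, and let `p` be a prime number.  For all but finitely many integers
`t` the polynomial `(X - t) P_1 ⋯ P_r - 1` is irreducible over `ℚ` and the field `K` generated by one
of its roots has exactly `1 + #{linear P_i}` real and `#{quadratic P_i}` complex places and satisfies
Leopoldt's conjecture at `p`.

(2) Let `k` be a number field with finitely many units (`ℚ` or imaginary quadratic), let `a_1, ...,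
a_m` be distinct integers of `k` and `p` a prime number.  For all but finitely many integers `t` of
`k` the polynomial `(X - t)(X - a_1) ⋯ (X - a_m) - 1` is irreducible over `k` and the field
generated over `k` by one of its roots satisfies Leopoldt's conjecture at `p`.

Leopoldt's conjecture for `K` and `p` (`LeopoldtAt K p`) is in the form of the frozen statement: units
congruent to `1` modulo all primes above `p` which are independent over `ℤ` are independent over
`ℤ_p`.

Proof.  The units `P_i(θ)` have the right number.  If their `p`-adic logarithms have a vanishing
determinant for infinitely many `t`, then these accumulate at some `t₀` in the compact closure; by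
analyticity (Puiseux parametrisation at `t₀`) the determinant vanishes identically near `t₀`; by
Ostrowski's theorem on primitives a vanishing determinant of primitives of algebraic functions has
a vanishing determinant of residues, at any place of the function field above `t = ∞`; but there
the matrix of residues is `-1`.

The parts were proved together with helpers 101, 239, 253, 289, 327, 398, 460, 540, 542, 605, 924,
930.
-/

set_option autoImplicit false

namespace Pool.Agent.Results.MP_5f2860_nt.ExplicitFamilies

open Polynomial NumberField IntermediateField Pool.Agent.W254.LF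

/-- **Main result.** -/
theorem result :
    (∀ (p : ℕ) [Fact p.Prime] (r : ℕ) (P : Fin r → ℤ[X]), (∀ i, (P i).Monic) →
      Function.Injective P →
      (∀ i, (P i).natDegree = 1 ∨
        ((P i).natDegree = 2 ∧ ∀ x : ℝ, ((P i).map (Int.castRingHom ℝ)).eval x ≠ 0)) →
      {t : ℤ | ¬ (Irreducible (((X - C t) * ∏ i, P i - 1 : ℤ[X]).map (Int.castRingHom ℚ)) ∧
        ∀ (K : Type) [Field K] [NumberField K] (θ : K),
          aeval θ ((X - C t) * ∏ i, P i - 1 : ℤ[X]) = 0 → ℚ⟮θ⟯ = ⊤ →
          InfinitePlace.nrRealPlaces K =
            1 + (Finset.univ.filter fun i => (P i).natDegree = 1).card ∧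
          InfinitePlace.nrComplexPlaces K =
            (Finset.univ.filter fun i => (P i).natDegree = 2).card ∧
          LeopoldtAt K p)}.Finite) ∧
    (∀ (p : ℕ) [Fact p.Prime] (k : Type) [Field k] [NumberField k], Units.rank k = 0 →
      ∀ (m : ℕ) (a : Fin m → 𝓞 k), Function.Injective a →
      {t : 𝓞 k | ¬ (Irreducible ((X - C (t : k)) * ∏ i, (X - C (a i : k)) - 1 : k[X]) ∧
        ∀ (K : Type) [Field K] [NumberField K] [Algebra k K] (θ : K),
          aeval θ ((X - C (t : k)) * ∏ i, (X - C (a i : k)) - 1 : k[X]) = 0 → k⟮θ⟯ = ⊤ →
          LeopoldtAt K p)}.Finite) := by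
  refine ⟨fun p _ r P hmon hinj hdeg => finalZ p r P hmon hinj hdeg, ?_⟩
  intro p _ k _ _ hk m a ha
  have h1 : ∀ t : 𝓞 k, (fam a t).map (algebraMap (𝓞 k) k) =
      ((X - C (t : k)) * ∏ i, (X - C (a i : k)) - 1 : k[X]) := by
    intro t
    rw [fam_map]
    rfl
  have h2 := final2 p k hk m a ha
  simp only [h1] at h2
  exact h2

end Pool.Agent.Results.MP_5f2860_nt.ExplicitFamilies
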