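import Pool.Agent.W254.PA.LeoH

/-!
# Leopoldt relations with polynomial exponents and Galois groups without small representations

Let `t_1, ..., t_n` be arbitrary elements of the algebraic closure of `ℚ_p`, `D ≥ 0` and
`N = (4 D)^n - 2^n` (for `n = 1 ≤ D`: `N = 4 D - 2`).  We call `a_1, ..., a_r` admissible exponents if
`a_i = y P_i(t)` for some `y` and polynomials `P_i` with algebraic coefficients, of degree at most `D`
in each variable.

(1) For every number field `K`, every embedding `σ` and all multiplicatively independent units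
`ε_1, ..., ε_r` of `K` (`r` arbitrary) the admissible relations `∑ a_i log σ ε_i = 0` span a space of
dimension at most `N`, however large `r` is.

(2) Let `F / ℚ` be Galois with a group all of whose complex representations of dimension at most `N`
are abelian (factor through the commutator quotient), for example the symmetric group of degree
`m ≥ 5, m ≥ 2 N + 2` or the alternating group of degree `m ≥ 5, m ≥ 2 N + 4`.  Then for no subfield
`K` of `F` and no multiplicatively independent units of `K` is there a nonzero Leopoldt relation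
`∑ a_i log σ ε_i = 0` (for all the embeddings `σ` of `K`) with admissible exponents.

Proof.  (1) is the hyperplane theorem with a multiplication argument.  (2) The relations over `F`
span a representation of the Galois group of dimension at most `N`, on which the group acts through an
abelian quotient; an eigenvector is a relation for a character, and the argument of Ax and Brumer
(nonvanishing of resolvents by Brumer's theorem) shows that it is zero.
-/

set_option autoImplicit false

namespace Pool.Agent.Results.MP_5f2860_nt.GaloisGroups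

open NumberField MvPolynomial

/-- Admissible exponents: up to a common factor `y` the values at `t` of polynomials with algebraic
coefficients, of degree at most `D` in each variable. -/
def Admissible (p : ℕ) [Fact p.Prime] (n D : ℕ) (t : Fin n → PadicAlgCl p) (r : ℕ)
    (a : Fin r → PadicAlgCl p) : Prop :=
  ∃ (y : PadicAlgCl p) (P : Fin r → MvPolynomial (Fin n) (algebraicClosure ℚ (PadicAlgCl p))),
    (∀ i, ∀ m ∈ (P i).support, ∀ s, m s ≤ D) ∧ ∀ i, a i = y * aeval t (P i)

/-- The condition on the Galois group: all complex representations of dimension at most `N` are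
abelian, or the group is a symmetric or an alternating group of large degree. -/
def GroupCondition (N : ℕ) (G : Type) [Group G] : Prop :=
  (∀ (W : Type) [AddCommGroup W] [Module ℂ W] [FiniteDimensional ℂ W]
      (ρ : Representation ℂ G W), Module.finrank ℂ W ≤ N → ∀ g h, ρ (g * h) = ρ (h * g)) ∨
    (∃ m : ℕ, 5 ≤ m ∧ 2 * N + 2 ≤ m ∧ Nonempty (G ≃* Equiv.Perm (Fin m))) ∨
    (∃ m : ℕ, 5 ≤ m ∧ 2 * N + 4 ≤ m ∧ Nonempty (G ≃* alternatingGroup (Fin m)))

/-- **Main result.** -/
theorem result (p : ℕ) [Fact p.Prime] (L : PadicAlgCl p → PadicAlgCl p)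
    (hmul : ∀ x y : PadicAlgCl p, x ≠ 0 → y ≠ 0 → L (x * y) = L x + L y)
    (hprime : L ((p : ℕ) : PadicAlgCl p) = 0)
    (hser : ∀ z : PadicAlgCl p, ‖z‖ < 1 →
      HasSum (fun n : ℕ => (-1 : PadicAlgCl p) ^ n * z ^ (n + 1) / ((n : PadicAlgCl p) + 1))
        (L (1 + z)))
    (n D : ℕ) (t : Fin n → PadicAlgCl p) :
    (∀ (K : Type) [Field K] [NumberField K] (σ : K →+* PadicAlgCl p) (r : ℕ)
      (ε : Fin r → (𝓞 K)ˣ), (∀ m : Fin r → ℤ, ∏ i, ε i ^ m i = 1 → m = 0) →
      Module.finrank (PadicAlgCl p) (Submodule.span (PadicAlgCl p)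
        {a : Fin r → PadicAlgCl p | Admissible p n D t r a ∧
          ∑ i, a i * L (σ ((ε i : 𝓞 K) : K)) = 0}) ≤ (4 * D) ^ n - 2 ^ n) ∧
    (∀ (F : Type) [Field F] [NumberField F] [IsGalois ℚ F],
      GroupCondition ((4 * D) ^ n - 2 ^ n) (F ≃ₐ[ℚ] F) →
      ∀ (K : Type) [Field K] [NumberField K] (_ : K →+* F) (r : ℕ) (ε : Fin r → (𝓞 K)ˣ),
        (∀ m : Fin r → ℤ, ∏ i, ε i ^ m i = 1 → m = 0) →
        ∀ a : Fin r → PadicAlgCl p, Admissible p n D t r a →
          (∀ σ : K →+* PadicAlgCl p, ∑ i, a i * L (σ ((ε i : 𝓞 K) : K)) = 0) → a = 0) :=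
  ⟨fun _ _ _ σ r ε hind =>
      Pool.Agent.W254.PA.rank_bound ⟨hmul, hprime, hser⟩ t D σ r ε hind,
    fun _ _ _ _ hG _ _ _ j r ε hind a ha h0 =>
      Pool.Agent.W254.PA.gal_groups ⟨hmul, hprime, hser⟩ t D hG j r ε hind a ha h0⟩

end Pool.Agent.Results.MP_5f2860_nt.GaloisGroups
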